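import Pool.Agent.GS8.Local
import Pool.Agent.GS8.Approx
import Pool.Agent.GS8.Weak
import Pool.Agent.GS8.Reg1D
import Pool.Agent.GS8.Reg2
import Pool.Agent.GS8.CalcD
import Pool.Agent.GS8.Mass
import Pool.Agent.GS8.Axis
import Pool.Agent.GS8.Geom
import Pool.Agent.GS8.Lower
import Pool.Agent.GS8.Upper
import Pool.Agent.GS8.Win
import Pool.Agent.GS8.Green

set_option autoImplicit false

/-!
# The logarithm of the ground state is not essentially quadratic on a convex set of `ℝ⁸`

The negated form of the problem `MP_dd30b7_an`, Q1, with the ground state in the sense of the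
problem file: a function of `H¹₀(Ω)`, with the lowest Dirichlet eigenvalue.
-/

open MeasureTheory Set Filter Topology
open scoped Real ContDiff

namespace Pool.Agent.Results.MP_dd30b7_an.DimensionEight

/-- The `i`-th partial derivative. -/
noncomputable def partialD {n : ℕ} (i : Fin n) (f : EuclideanSpace ℝ (Fin n) → ℝ)
    (x : EuclideanSpace ℝ (Fin n)) : ℝ :=
  fderiv ℝ f x (EuclideanSpace.single i (1 : ℝ))

/-- The Laplacian. -/
noncomputable def laplacian {n : ℕ} (f : EuclideanSpace ℝ (Fin n) → ℝ)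
    (x : EuclideanSpace ℝ (Fin n)) : ℝ :=
  ∑ i : Fin n, partialD i (partialD i f) x

/-- Continuously differentiable functions with compact support inside `Ω`. -/
def IsTest {n : ℕ} (Ω : Set (EuclideanSpace ℝ (Fin n))) (f : EuclideanSpace ℝ (Fin n) → ℝ) :
    Prop :=
  ContDiff ℝ 1 f ∧ HasCompactSupport f ∧ tsupport f ⊆ Ω

/-- `u` is the normalised positive ground state of the Dirichlet Laplacian of `Ω`, and `lam` is its
eigenvalue. -/
structure IsGroundState {n : ℕ} (Ω : Set (EuclideanSpace ℝ (Fin n)))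
    (u : EuclideanSpace ℝ (Fin n) → ℝ) (lam : ℝ) : Prop where
  /-- `u` is twice continuously differentiable in `Ω` -/
  smooth : ContDiffOn ℝ 2 u Ω
  /-- `u` is square integrable -/
  sq_int : IntegrableOn (fun x => u x ^ 2) Ω
  /-- the gradient of `u` is square integrable -/
  grad_int : ∀ i : Fin n, IntegrableOn (fun x => partialD i u x ^ 2) Ω
  /-- `u` belongs to `H¹₀(Ω)` -/
  approx : ∃ φ : ℕ → EuclideanSpace ℝ (Fin n) → ℝ, (∀ j, IsTest Ω (φ j)) ∧
    Tendsto (fun j => ∫ x in Ω, ((φ j x - u x) ^ 2 +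
      ∑ i : Fin n, (partialD i (φ j) x - partialD i u x) ^ 2)) atTop (𝓝 0)
  /-- the eigenvalue equation -/
  eqn : ∀ x ∈ Ω, -laplacian u x = lam * u x
  /-- `lam` is the lowest eigenvalue -/
  lowest : ∀ f : EuclideanSpace ℝ (Fin n) → ℝ, IsTest Ω f →
    lam * ∫ x in Ω, f x ^ 2 ≤ ∑ i : Fin n, ∫ x in Ω, partialD i f x ^ 2
  /-- `u` is positive -/
  pos : ∀ x ∈ Ω, 0 < u x
  /-- `u` is normalised -/
  norm : ∫ x in Ω, u x ^ 2 = 1
  /-- `u` is continuous up to the boundary -/
  cont : ContinuousOn u (closure Ω)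
  /-- and vanishes there -/
  zero : ∀ x ∈ frontier Ω, u x = 0

/-- The quadratic form of the matrix `H(x) = -∇² log u(x)`. -/
noncomputable def H {n : ℕ} (u : EuclideanSpace ℝ (Fin n) → ℝ) (x v : EuclideanSpace ℝ (Fin n)) :
    ℝ :=
  -(fderiv ℝ (fderiv ℝ (fun y => Real.log (u y))) x v v)

section aux

open Pool.Agent.GS8

theorem isGroundState_of {n : ℕ} {Ω : Set (E n)} {u : E n → ℝ} {lam : ℝ} (ho : IsOpen Ω)
    (hu : Ground Ω u lam) (hc : Calc Ω u lam) (hn : ∫ x, u x ^ 2 = 1) :
    IsGroundState Ω u lam where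
  smooth := hu.smooth
  sq_int := hc.sq_int
  grad_int := hc.grad_int
  approx := by
    have hη : ∀ j : ℕ, (0 : ℝ) < 1 / ((j : ℝ) + 1) := fun j => by positivity
    have hη0 : Tendsto (fun j : ℕ => 1 / ((j : ℝ) + 1)) atTop (𝓝[>] 0) :=
      tendsto_nhdsWithin_iff.mpr ⟨tendsto_one_div_add_atTop_nhds_zero_nat,
        Eventually.of_forall hη⟩
    refine ⟨fun j x => FF (1 / ((j : ℝ) + 1)) (u x), fun j =>
      ⟨(hc.trunc _ (hη j)).smooth, (hc.trunc _ (hη j)).cpt, (hc.trunc _ (hη j)).sub⟩, ?_⟩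
    have hcd : ∀ i : Fin n, ContinuousOn (fun x => partialD i u x) Ω := fun i =>
      (pd_contDiffOn ho hu.smooth i).continuousOn
    have h0 : (0 : ℝ) = ∫ _x in Ω, (0 : ℝ) := by simp
    rw [h0]
    refine tendsto_integral_of_dominated_convergence
      (fun x => u x ^ 2 + ∑ i : Fin n, partialD i u x ^ 2) (fun j => ?_) ?_ (fun j => ?_) ?_
    · have h1 : ∀ i : Fin n, ∀ x, partialD i (fun x => FF (1 / ((j : ℝ) + 1)) (u x)) x =
          FF' (1 / ((j : ℝ) + 1)) (u x) * partialD i u x := fun i x =>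
        hc.trunc_pd _ (hη j) i x
      have h2 : ContinuousOn (fun x => (FF (1 / ((j : ℝ) + 1)) (u x) - u x) ^ 2 +
          ∑ i : Fin n, (FF' (1 / ((j : ℝ) + 1)) (u x) * partialD i u x - partialD i u x) ^ 2) Ω := by
        have c1 : Continuous fun x => FF (1 / ((j : ℝ) + 1)) (u x) :=
          (FF_continuous (hη j)).comp hu.cont
        have c2 : Continuous fun x => FF' (1 / ((j : ℝ) + 1)) (u x) :=
          (FF'_continuous (hη j)).comp hu.cont
        refine ((c1.sub hu.cont).pow 2).continuousOn.add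
          (continuousOn_finsetSum _ fun i _ => ?_)
        exact ((c2.continuousOn.mul (hcd i)).sub (hcd i)).pow 2
      refine (h2.aestronglyMeasurable ho.measurableSet).congr (ae_of_all _ fun x => ?_)
      simp only [h1]
    · exact hc.sq_int.add (integrable_finsetSum _ fun i _ => hc.grad_int i)
    · refine (ae_restrict_iff' ho.measurableSet).mpr (ae_of_all _ fun x hx => ?_)
      have hpos := hu.pos x hx
      rw [Real.norm_of_nonneg (by positivity)]
      refine add_le_add ?_ (Finset.sum_le_sum fun i _ => ?_)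
      · have a1 := FF_nonneg (hη j) (u x)
        have a2 := FF_le (hη j) hpos.le
        nlinarith
      · have h1 : partialD i (fun x => FF (1 / ((j : ℝ) + 1)) (u x)) x =
          FF' (1 / ((j : ℝ) + 1)) (u x) * partialD i u x := hc.trunc_pd _ (hη j) i x
        rw [h1]
        have a1 := FF'_nonneg (hη j) (u x)
        have a2 := FF'_le_one (η := 1 / ((j : ℝ) + 1)) (u x)
        have a3 : (FF' (1 / ((j : ℝ) + 1)) (u x) - 1) ^ 2 ≤ 1 := by nlinarith
        calc (FF' (1 / ((j : ℝ) + 1)) (u x) * partialD i u x - partialD i u x) ^ 2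
            = (FF' (1 / ((j : ℝ) + 1)) (u x) - 1) ^ 2 * partialD i u x ^ 2 := by ring
          _ ≤ 1 * partialD i u x ^ 2 := by gcongr
          _ = partialD i u x ^ 2 := one_mul _
    · refine (ae_restrict_iff' ho.measurableSet).mpr (ae_of_all _ fun x hx => ?_)
      have hpos := hu.pos x hx
      have t1 : Tendsto (fun j : ℕ => FF (1 / ((j : ℝ) + 1)) (u x)) atTop (𝓝 (u x)) :=
        (FF_tendsto hpos.le).comp hη0
      have t2 : Tendsto (fun j : ℕ => FF' (1 / ((j : ℝ) + 1)) (u x)) atTop (𝓝 1) :=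
        (FF'_tendsto hpos).comp hη0
      have h1 : ∀ (j : ℕ) (i : Fin n), partialD i (fun x => FF (1 / ((j : ℝ) + 1)) (u x)) x =
          FF' (1 / ((j : ℝ) + 1)) (u x) * partialD i u x := fun j i =>
        hc.trunc_pd _ (hη j) i x
      simp only [h1]
      have t3 := ((t1.sub_const (u x)).pow 2).add (tendsto_finsetSum Finset.univ
        fun (i : Fin n) _ => ((t2.mul_const (partialD i u x)).sub_const (partialD i u x)).pow 2)
      simpa using t3
  eqn := hu.eq
  lowest := by
    intro f hf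
    have ht : Test1 Ω f := ⟨hf.1, hf.2.1, hf.2.2⟩
    have h1 := hc.picone f ht
    have h2 : ∫ x in Ω, f x ^ 2 = ∫ x, f x ^ 2 :=
      setIntegral_eq_integral_of_forall_compl_eq_zero fun x hx => by
        rw [ht.eqz hx]; norm_num
    have h3 : ∀ i : Fin n, ∫ x in Ω, partialD i f x ^ 2 = ∫ x, pd i f x ^ 2 := fun i =>
      setIntegral_eq_integral_of_forall_compl_eq_zero fun x hx => by
        have : partialD i f x = 0 := ht.pdz hx i
        rw [this]; norm_num
    rw [h2]
    simp only [h3]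
    exact h1
  pos := hu.pos
  norm := by rw [hu.sq_set]; exact hn
  cont := hu.cont.continuousOn
  zero := fun x hx => hu.zero x fun hx' => by
    rw [frontier, ho.interior_eq] at hx
    exact hx.2 hx'

end aux

/-- For every constant `C` there are a bounded open convex set `Ω` of `ℝ⁸`, invariant under the
reflections in the coordinate hyperplanes, with normalised ground state `u`, whose maximum is at
`0`, and a point `p` with `u p > u 0 / 2`, such that for some coordinate direction one of the two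
inequalities between the Hessians of `log u` at `p` and at `0` fails with the constant `C`. -/
theorem result : ∀ C : ℝ, 0 < C →
    ∃ (Ω : Set (EuclideanSpace ℝ (Fin 8))) (u : EuclideanSpace ℝ (Fin 8) → ℝ) (lam : ℝ),
      IsOpen Ω ∧ Convex ℝ Ω ∧ Bornology.IsBounded Ω ∧ 0 ∈ Ω ∧
      (∀ x ∈ Ω, ∀ (i : Fin 8) (y : EuclideanSpace ℝ (Fin 8)), y i = -x i →
        (∀ j, j ≠ i → y j = x j) → y ∈ Ω) ∧
      IsGroundState Ω u lam ∧ ConcaveOn ℝ Ω (fun x => Real.log (u x)) ∧
      (∀ x ∈ Ω, u x ≤ u 0) ∧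
      ∃ p ∈ Ω, u 0 / 2 < u p ∧ ∃ i : Fin 8,
        C * H u 0 (EuclideanSpace.single i (1 : ℝ)) < H u p (EuclideanSpace.single i (1 : ℝ)) ∨
        C * H u p (EuclideanSpace.single i (1 : ℝ)) < H u 0 (EuclideanSpace.single i (1 : ℝ)) := by
  intro C hC
  obtain ⟨w, hw, hw4, hev⟩ := Pool.Agent.GS8.fails_eventually Pool.Agent.GS8.targetCalc
    Pool.Agent.GS8.targetMass Pool.Agent.GS8.targetAxis Pool.Agent.GS8.targetGeom
    Pool.Agent.GS8.targetLower Pool.Agent.GS8.targetUpper Pool.Agent.GS8.targetWin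
    Pool.Agent.GS8.targetGreen hC
  obtain ⟨k, hk1, hk⟩ := hev.exists
  have hg := Pool.Agent.GS8.targetGeom w k hw hw4 hk1
  have hground : Pool.Agent.GS8.TargetGround :=
    Pool.Agent.GS8.targetGround_of Pool.Agent.GS8.targetApprox Pool.Agent.GS8.targetWeak
      (Pool.Agent.GS8.targetReg_of Pool.Agent.GS8.Reg.targetInterior)
  obtain ⟨u', lam, hu'⟩ := hground 8 (Pool.Agent.GS8.Om w k) (by norm_num) hg.isOpen hg.convex
    hg.bounded ⟨0, hg.zero_mem⟩
  obtain ⟨u, hu, hnorm⟩ := hu'.normalize hg.isOpen hg.bounded ⟨0, hg.zero_mem⟩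
  have hc := Pool.Agent.GS8.targetCalc 8 (Pool.Agent.GS8.Om w k) u lam hg.isOpen hg.bounded hu
  have hmax : ∀ x, u x ≤ u 0 := hu.max_zero (fun x hx => Pool.Agent.GS8.Om_neg hx) hg.zero_mem
  refine ⟨Pool.Agent.GS8.Om w k, u, lam, hg.isOpen, hg.convex, hg.bounded, hg.zero_mem, ?_,
    isGroundState_of hg.isOpen hu hc hnorm, hu.conc, fun x _ => hmax x, ?_⟩
  · intro x hx i y hy1 hy2
    obtain ⟨σ, hσ, hσ'⟩ := hg.reflect i
    have hy : y = σ x := by
      ext j
      rw [hσ]
      split_ifs with h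
      · rw [h]; exact hy1
      · exact hy2 j h
    rw [hy]
    exact (hσ' x).mpr hx
  · have hf := hk u lam hu hnorm
    unfold Pool.Agent.GS8.CompAt at hf
    push Not at hf
    obtain ⟨i, p, hp, hup, hf⟩ := hf
    refine ⟨p, hp, hup, i, ?_⟩
    have e1 : H u p (EuclideanSpace.single i (1 : ℝ)) = Pool.Agent.GS8.sig i u p := hc.hess i p hp
    have e2 : H u 0 (EuclideanSpace.single i (1 : ℝ)) = Pool.Agent.GS8.sig i u 0 :=
      hc.hess i 0 hg.zero_mem
    rw [e1, e2]
    by_cases h1 : C⁻¹ * Pool.Agent.GS8.sig i u p ≤ Pool.Agent.GS8.sig i u 0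
    · exact Or.inr (hf h1)
    · left
      rw [not_le, lt_inv_mul_iff₀ hC] at h1
      exact h1

end Pool.Agent.Results.MP_dd30b7_an.DimensionEight
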